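import Mathlib

/-!
# Hypercomplex structures on Lie algebras, the Obata connection, its holonomy algebra
-/

namespace Pool.Q185.Obata

variable {g : Type*} [LieRing g] [LieAlgebra ℝ g]

/-- `J` is a complex structure on the real Lie algebra `g`: `J² = -1` and the Nijenhuis
tensor of `J` vanishes. -/
def IsComplexStructure (J : g →ₗ[ℝ] g) : Prop :=
  (∀ X : g, J (J X) = -X) ∧
    ∀ X Y : g, ⁅X, Y⁆ + J (⁅J X, Y⁆ + ⁅X, J Y⁆) - ⁅J X, J Y⁆ = 0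

/-- `(J₁, J₂, J₃)` is a hypercomplex structure on the real Lie algebra `g`. -/
structure IsHypercomplex (J₁ J₂ J₃ : g →ₗ[ℝ] g) : Prop where
  cplx₁ : IsComplexStructure J₁
  cplx₂ : IsComplexStructure J₂
  cplx₃ : IsComplexStructure J₃
  mul₁₂ : ∀ X : g, J₁ (J₂ X) = J₃ X
  mul₂₁ : ∀ X : g, J₂ (J₁ X) = -J₃ X

/-- A left-invariant connection, written on left-invariant vector fields as a linear map
`X ↦ ∇_X`, is torsion-free. -/
def IsTorsionFree (nab : g →ₗ[ℝ] Module.End ℝ g) : Prop :=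
  ∀ X Y : g, nab X Y - nab Y X = ⁅X, Y⁆

/-- `∇ J = 0`. -/
def IsParallel (nab : g →ₗ[ℝ] Module.End ℝ g) (J : g →ₗ[ℝ] g) : Prop :=
  ∀ X Y : g, nab X (J Y) = J (nab X Y)

/-- The formula defining the Obata connection. -/
noncomputable def obataFormula (J₁ J₂ J₃ : g →ₗ[ℝ] g) (X Y : g) : g :=
  (1 / 2 : ℝ) • (⁅X, Y⁆ + J₁ ⁅J₁ X, Y⁆ - J₂ ⁅X, J₂ Y⁆ + J₃ ⁅J₁ X, J₂ Y⁆)

/-- The curvature operator `R(X,Y) = ∇_X ∇_Y - ∇_Y ∇_X - ∇_[X,Y]`. -/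
def curvature (nab : g →ₗ[ℝ] Module.End ℝ g) (X Y : g) : Module.End ℝ g :=
  nab X * nab Y - nab Y * nab X - nab ⁅X, Y⁆

/-- The holonomy algebra of a left-invariant connection (Ambrose-Singer): the smallest
linear space of endomorphisms which contains every curvature operator `R(X,Y)`, is closed under
commutators, and is stable under `A ↦ [∇_X, A]` for every `X`. -/
def holonomyAlgebra (nab : g →ₗ[ℝ] Module.End ℝ g) : Submodule ℝ (Module.End ℝ g) :=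
  sInf {K : Submodule ℝ (Module.End ℝ g) |
    (∀ X Y : g, curvature nab X Y ∈ K) ∧ (∀ A ∈ K, ∀ B ∈ K, A * B - B * A ∈ K) ∧
      ∀ X : g, ∀ A ∈ K, nab X * A - A * nab X ∈ K}

theorem curvature_mem_holonomyAlgebra (nab : g →ₗ[ℝ] Module.End ℝ g) (X Y : g) :
    curvature nab X Y ∈ holonomyAlgebra nab := by
  rw [holonomyAlgebra, Submodule.mem_sInf]
  intro K hK
  exact hK.1 X Y

theorem uniqueness {J₁ J₂ J₃ : g →ₗ[ℝ] g} (hJ : IsHypercomplex J₁ J₂ J₃)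
    (nab : g →ₗ[ℝ] Module.End ℝ g) (h0 : IsTorsionFree nab) (h1 : IsParallel nab J₁)
    (h2 : IsParallel nab J₂) (X Y : g) : nab X Y = obataFormula J₁ J₂ J₃ X Y := by
  have e1 : ⁅X, Y⁆ = nab X Y - nab Y X := (h0 X Y).symm
  have e2 : ⁅J₁ X, Y⁆ = nab (J₁ X) Y - J₁ (nab Y X) := by rw [← h0, h1]
  have e3 : ⁅X, J₂ Y⁆ = J₂ (nab X Y) - nab (J₂ Y) X := by rw [← h0, h2]
  have e4 : ⁅J₁ X, J₂ Y⁆ = J₂ (nab (J₁ X) Y) - J₁ (nab (J₂ Y) X) := by rw [← h0, h2, h1]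
  have a1 : ∀ Z, J₁ (J₁ Z) = -Z := hJ.cplx₁.1
  have a2 : ∀ Z, J₂ (J₂ Z) = -Z := hJ.cplx₂.1
  have a3 : ∀ Z, J₃ (J₂ Z) = -J₁ Z := fun Z => by rw [← hJ.mul₁₂, a2, map_neg]
  have a4 : ∀ Z, J₃ (J₁ Z) = J₂ Z := fun Z => by
    have := hJ.mul₂₁ (J₁ Z)
    rw [a1, map_neg] at this
    exact (neg_injective this).symm
  rw [obataFormula, e1, e2, e3, e4]
  simp only [map_sub, a1, a2, a3, a4]
  have : nab X Y - nab Y X + (J₁ (nab (J₁ X) Y) - -nab Y X) - (-nab X Y - J₂ (nab (J₂ Y) X))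
      + (-J₁ (nab (J₁ X) Y) - J₂ (nab (J₂ Y) X)) = (2 : ℝ) • nab X Y := by
    rw [two_smul]; abel
  rw [this, smul_smul]; norm_num

end Pool.Q185.Obata
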