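import Pool.Agent.Q185.Obata.Defs

/-!
# A 3-step nilpotent hypercomplex Lie algebra of real dimension 32
-/

namespace Pool.Q185.Obata

/-- The underlying real vector space: `ℂ^16`. -/
def G : Type := Fin 16 → ℂ

instance : AddCommGroup G := inferInstanceAs (AddCommGroup (Fin 16 → ℂ))
noncomputable instance : Module ℝ G := inferInstanceAs (Module ℝ (Fin 16 → ℂ))
instance : FiniteDimensional ℝ G := inferInstanceAs (FiniteDimensional ℝ (Fin 16 → ℂ))

namespace G

theorem finrank_eq : Module.finrank ℝ G = 32 := by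
  have h : Module.finrank ℝ (Fin 16 → ℂ) = 32 := by
    rw [Module.finrank_pi_fintype]
    simp [Complex.finrank_real_complex]
  exact h

theorem ext {X Y : G} (h : ∀ i : Fin 16, X i = Y i) : X = Y := funext h

@[simp] theorem add_ap (X Y : G) (i : Fin 16) : (X + Y) i = X i + Y i := rfl
@[simp] theorem sub_ap (X Y : G) (i : Fin 16) : (X - Y) i = X i - Y i := rfl
@[simp] theorem neg_ap (X : G) (i : Fin 16) : (-X) i = -X i := rfl
@[simp] theorem zero_ap (i : Fin 16) : (0 : G) i = 0 := rfl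
@[simp] theorem smul_ap (r : ℝ) (X : G) (i : Fin 16) : (r • X) i = (r : ℂ) * X i := rfl

/-- Vectors given by their sixteen complex coordinates. -/
def mk (v : Fin 16 → ℂ) : G := v

@[simp] theorem mk_ap (v : Fin 16 → ℂ) (i : Fin 16) : mk v i = v i := rfl

/-- The Lie bracket. -/
def br (X Y : G) : G := mk
  ![0, 0,
    0, 0,
    0, (X 0 * Y 3 - X 1 * Y 2) - (Y 0 * X 3 - Y 1 * X 2),
    -((X 0 * Y 3 - X 1 * Y 2) - (Y 0 * X 3 - Y 1 * X 2)), 0,
    (X 0 * (Y 5 + Y 6) - 2 * X 1 * Y 4) - (Y 0 * (X 5 + X 6) - 2 * Y 1 * X 4),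
    (2 * X 0 * Y 7 - X 1 * (Y 5 + Y 6)) - (2 * Y 0 * X 7 - Y 1 * (X 5 + X 6)),
    0, (X 0 * Y 9 - X 1 * Y 8) - (Y 0 * X 9 - Y 1 * X 8),
    -((X 0 * Y 9 - X 1 * Y 8) - (Y 0 * X 9 - Y 1 * X 8)), 0,
    (X 0 * (Y 11 + Y 12) - 2 * X 1 * Y 10) - (Y 0 * (X 11 + X 12) - 2 * Y 1 * X 10),
    (2 * X 0 * Y 13 - X 1 * (Y 11 + Y 12)) - (2 * Y 0 * X 13 - Y 1 * (X 11 + X 12))]

noncomputable instance : LieRing G where
  bracket := br
  add_lie X Y Z := by
    apply G.ext; intro i
    fin_cases i <;> simp [br] <;> ring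
  lie_add X Y Z := by
    apply G.ext; intro i
    fin_cases i <;> simp [br] <;> ring
  lie_self X := by
    apply G.ext; intro i
    fin_cases i <;> simp [br]
  leibniz_lie X Y Z := by
    apply G.ext; intro i
    fin_cases i <;> simp [br] <;> ring

theorem lie_def (X Y : G) : ⁅X, Y⁆ = br X Y := rfl

noncomputable instance : LieAlgebra ℝ G where
  lie_smul r X Y := by
    apply G.ext; intro i
    fin_cases i <;> simp [lie_def, br] <;> ring

/-- `J₁`: minus the right multiplication by `i` on `ℍ^8 = ℂ^16`. -/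
noncomputable def J₁ : G →ₗ[ℝ] G where
  toFun X := mk ![-(Complex.I * X 0), Complex.I * X 1, -(Complex.I * X 2), Complex.I * X 3,
    -(Complex.I * X 4), Complex.I * X 5, -(Complex.I * X 6), Complex.I * X 7,
    -(Complex.I * X 8), Complex.I * X 9, -(Complex.I * X 10), Complex.I * X 11,
    -(Complex.I * X 12), Complex.I * X 13, -(Complex.I * X 14), Complex.I * X 15]
  map_add' X Y := by
    apply G.ext; intro i
    fin_cases i <;> simp <;> ring
  map_smul' r X := by
    apply G.ext; intro i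
    fin_cases i <;> simp <;> ring

/-- `J₂`: minus the right multiplication by `j` on `ℍ^8 = ℂ^16`. -/
noncomputable def J₂ : G →ₗ[ℝ] G where
  toFun X := mk ![X 1, -X 0, X 3, -X 2, X 5, -X 4, X 7, -X 6, X 9, -X 8, X 11, -X 10,
    X 13, -X 12, X 15, -X 14]
  map_add' X Y := by
    apply G.ext; intro i
    fin_cases i <;> simp <;> ring
  map_smul' r X := by
    apply G.ext; intro i
    fin_cases i <;> simp

/-- `J₃`: minus the right multiplication by `k` on `ℍ^8 = ℂ^16`. -/
noncomputable def J₃ : G →ₗ[ℝ] G where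
  toFun X := mk ![-(Complex.I * X 1), -(Complex.I * X 0), -(Complex.I * X 3),
    -(Complex.I * X 2), -(Complex.I * X 5), -(Complex.I * X 4), -(Complex.I * X 7),
    -(Complex.I * X 6), -(Complex.I * X 9), -(Complex.I * X 8), -(Complex.I * X 11),
    -(Complex.I * X 10), -(Complex.I * X 13), -(Complex.I * X 12), -(Complex.I * X 15),
    -(Complex.I * X 14)]
  map_add' X Y := by
    apply G.ext; intro i
    fin_cases i <;> simp <;> ring
  map_smul' r X := by
    apply G.ext; intro i
    fin_cases i <;> simp <;> ring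

/-- The connection on left-invariant fields. -/
def con (X Y : G) : G := mk
  ![0, 0, 0, 0,
    X 0 * Y 2 + X 2 * Y 0, X 0 * Y 3 + X 2 * Y 1,
    X 1 * Y 2 + X 3 * Y 0, X 1 * Y 3 + X 3 * Y 1,
    2 * (X 0 * Y 6 - X 1 * Y 4) + (X 6 - X 5) * Y 0,
    2 * (X 0 * Y 7 - X 1 * Y 5) + (X 6 - X 5) * Y 1,
    X 0 * Y 8 + X 8 * Y 0, X 0 * Y 9 + X 8 * Y 1,
    X 1 * Y 8 + X 9 * Y 0, X 1 * Y 9 + X 9 * Y 1,
    2 * (X 0 * Y 12 - X 1 * Y 10) + (X 12 - X 11) * Y 0,
    2 * (X 0 * Y 13 - X 1 * Y 11) + (X 12 - X 11) * Y 1]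

/-- The connection as a linear map. -/
noncomputable def nab : G →ₗ[ℝ] Module.End ℝ G := LinearMap.mk₂ ℝ con
  (fun X Y Z => by
    apply G.ext; intro i
    fin_cases i <;> simp [con] <;> ring)
  (fun r X Y => by
    apply G.ext; intro i
    fin_cases i <;> simp [con] <;> ring)
  (fun X Y Z => by
    apply G.ext; intro i
    fin_cases i <;> simp [con] <;> ring)
  (fun r X Y => by
    apply G.ext; intro i
    fin_cases i <;> simp [con] <;> ring)

theorem nab_ap (X Y : G) : nab X Y = con X Y := rfl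

theorem torsionFree : IsTorsionFree nab := by
  intro X Y
  apply G.ext; intro i
  fin_cases i <;> simp [nab_ap, con, lie_def, br] <;> ring

theorem parallel₁ : IsParallel nab J₁ := by
  intro X Y
  apply G.ext; intro i
  fin_cases i <;> simp [nab_ap, con, J₁] <;> ring

theorem parallel₂ : IsParallel nab J₂ := by
  intro X Y
  apply G.ext; intro i
  fin_cases i <;> simp [nab_ap, con, J₂] <;> ring

theorem parallel₃ : IsParallel nab J₃ := by
  intro X Y
  apply G.ext; intro i
  fin_cases i <;> simp [nab_ap, con, J₃] <;> ring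

/-- A torsion-free connection with `∇ J = 0` and `J² = -1` makes `J` integrable. -/
theorem cplx_of_parallel (J : G →ₗ[ℝ] G) (hJ : ∀ X, J (J X) = -X) (h : IsParallel nab J) :
    IsComplexStructure J := by
  refine ⟨hJ, fun X Y => ?_⟩
  rw [← torsionFree X Y, ← torsionFree (J X) Y, ← torsionFree X (J Y),
    ← torsionFree (J X) (J Y), h, h, h, h]
  simp only [map_sub, map_add, hJ]
  abel

theorem hyper : IsHypercomplex J₁ J₂ J₃ where
  cplx₁ := cplx_of_parallel J₁ (fun X => by
    apply G.ext; intro i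
    fin_cases i <;> simp [J₁, ← mul_assoc]) parallel₁
  cplx₂ := cplx_of_parallel J₂ (fun X => by
    apply G.ext; intro i
    fin_cases i <;> simp [J₂]) parallel₂
  cplx₃ := cplx_of_parallel J₃ (fun X => by
    apply G.ext; intro i
    fin_cases i <;> simp [J₃, ← mul_assoc]) parallel₃
  mul₁₂ X := by
    apply G.ext; intro i
    fin_cases i <;> simp [J₁, J₂, J₃]
  mul₂₁ X := by
    apply G.ext; intro i
    fin_cases i <;> simp [J₁, J₂, J₃]

theorem threeStep (X Y Z W : G) : ⁅X, ⁅Y, ⁅Z, W⁆⁆⁆ = 0 := by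
  apply G.ext; intro i
  fin_cases i <;> simp [lie_def, br]

end G
end Pool.Q185.Obata
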